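import Mathlib

/-!
# Heisenberg orbits over finite fields
-/

set_option autoImplicit false

namespace Pool.Agent.N392.Approx

variable {F : Type*} [Field F] [Fintype F]

/-- The time-frequency shift of `x : F → ℂ` by `v = (a, b)`: the vector with entries
`ψ(b k) x (k - a)`. -/
noncomputable def shift (ψ : AddChar F ℂ) (v : F × F) (x : EuclideanSpace ℂ F) :
    EuclideanSpace ℂ F :=
  WithLp.toLp 2 fun k => ψ (v.2 * k) * x (k - v.1)

end Pool.Agent.N392.Approx
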