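import Mathlib
import Pool.Agent.N392.Approx.Defs

/-!
# Overlaps of time-frequency shifts over finite fields
-/

set_option autoImplicit false

open Finset ComplexConjugate

namespace Pool.Agent.N392.Approx

variable {F : Type*} [Field F] [Fintype F]

/-- overlaps -/
noncomputable def ov (ψ : AddChar F ℂ) (x : F → ℂ) (a b : F) : ℂ :=
  ∑ k, conj (x k) * x (k + a) * ψ (b * k)

omit [Fintype F] in
theorem conj_char [Finite F] (ψ : AddChar F ℂ) (b : F) : conj (ψ b) = ψ (-b) := by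
  rw [AddChar.map_neg_eq_conj]

omit [Fintype F] in
theorem norm_char [Finite F] (ψ : AddChar F ℂ) (b : F) : ‖ψ b‖ = 1 :=
  AddChar.norm_apply _ _

theorem inner_shift (ψ : AddChar F ℂ) (x : EuclideanSpace ℂ F) (q r : F × F) :
    inner ℂ (shift ψ q x) (shift ψ r x) =
      ψ ((r.2 - q.2) * q.1) * ov ψ x (q.1 - r.1) (r.2 - q.2) := by
  rw [PiLp.inner_apply]
  unfold ov
  rw [Finset.mul_sum]
  refine Fintype.sum_equiv (Equiv.subRight q.1) _ _ fun k => ?_
  rw [Equiv.subRight_apply]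
  unfold shift
  simp only [RCLike.inner_apply]
  rw [map_mul (starRingEnd ℂ), conj_char]
  have h1 : ψ (-(q.2 * k)) * ψ (r.2 * k) =
      ψ ((r.2 - q.2) * q.1) * ψ ((r.2 - q.2) * (k - q.1)) := by
    rw [← AddChar.map_add_eq_mul, ← AddChar.map_add_eq_mul]
    congr 1
    ring
  have h2 : k - q.1 + (q.1 - r.1) = k - r.1 := by ring
  rw [h2]
  linear_combination (x (k - r.1) * conj (x (k - q.1))) * h1

omit [Fintype F] in
theorem shift_zero (ψ : AddChar F ℂ) (x : EuclideanSpace ℂ F) : shift ψ 0 x = x := by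
  unfold shift
  ext k
  simp

theorem norm_shift (ψ : AddChar F ℂ) (x : EuclideanSpace ℂ F) (q : F × F) :
    ‖shift ψ q x‖ = ‖x‖ := by
  have h1 := inner_shift ψ x q q
  have h2 := inner_shift ψ x 0 0
  rw [shift_zero] at h2
  simp only [sub_self, zero_mul, AddChar.map_zero_eq_one, one_mul, Prod.snd_zero,
    Prod.fst_zero] at h1 h2
  rw [← h2, inner_self_eq_norm_sq_to_K, inner_self_eq_norm_sq_to_K] at h1
  have h4 : ‖shift ψ q x‖ ^ 2 = ‖x‖ ^ 2 := by exact_mod_cast h1
  exact (pow_left_inj₀ (norm_nonneg _) (norm_nonneg _) two_ne_zero).1 h4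

theorem norm_sq_eq (ψ : AddChar F ℂ) (x : EuclideanSpace ℂ F) :
    ((‖x‖ ^ 2 : ℝ) : ℂ) = ov ψ x 0 0 := by
  have h := inner_shift ψ x 0 0
  rw [shift_zero, inner_self_eq_norm_sq_to_K] at h
  simp only [sub_self, zero_mul, AddChar.map_zero_eq_one, one_mul, Prod.snd_zero,
    Prod.fst_zero] at h
  rw [← h]
  push_cast
  rfl

/-- character sums -/
theorem sum_char [DecidableEq F] {ψ : AddChar F ℂ} (hψ : ψ ≠ 1) (b : F) :
    ∑ k : F, ψ (k * b) = if b = 0 then (Fintype.card F : ℂ) else 0 := by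
  have h := AddChar.sum_mulShift b (AddChar.IsPrimitive.of_ne_one hψ)
  rw [h]
  split_ifs <;> simp

/-- quadratic Gauss sums -/
theorem gauss (h2 : (2 : F) ≠ 0) {ψ : AddChar F ℂ} (hψ : ψ ≠ 1) {α : F} (hα : α ≠ 0) (β γ : F) :
    ‖∑ k : F, ψ (α * k ^ 2 + β * k + γ)‖ = Real.sqrt (Fintype.card F) := by
  classical
  set g := ∑ k : F, ψ (α * k ^ 2 + β * k + γ) with hg
  have h1 : g * conj g = (Fintype.card F : ℂ) := by
    rw [hg, map_sum, Finset.sum_mul_sum]
    have e1 : ∀ k : F, ∑ l : F, ψ (α * k ^ 2 + β * k + γ) * conj (ψ (α * l ^ 2 + β * l + γ)) =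
        ∑ m : F, ψ (-(α * m ^ 2 + β * m)) * ψ (k * (-(2 * α * m))) := by
      intro k
      refine Fintype.sum_equiv (Equiv.subRight k) _ _ fun l => ?_
      rw [Equiv.subRight_apply, conj_char, ← AddChar.map_add_eq_mul, ← AddChar.map_add_eq_mul]
      congr 1
      ring
    rw [Finset.sum_congr rfl fun k _ => e1 k, Finset.sum_comm]
    have e2 : ∀ m : F, ∑ k : F, ψ (-(α * m ^ 2 + β * m)) * ψ (k * (-(2 * α * m))) =
        if m = 0 then (Fintype.card F : ℂ) else 0 := by
      intro m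
      rw [← Finset.mul_sum, sum_char hψ]
      by_cases hm : m = 0
      · rw [hm]
        simp
      · have : -(2 * α * m) ≠ 0 := neg_ne_zero.2 (mul_ne_zero (mul_ne_zero h2 hα) hm)
        rw [if_neg this, if_neg hm, mul_zero]
    rw [Finset.sum_congr rfl fun m _ => e2 m, Finset.sum_ite_eq', if_pos (Finset.mem_univ _)]
  rw [Complex.mul_conj, Complex.normSq_eq_norm_sq] at h1
  have h3 : ‖g‖ ^ 2 = (Fintype.card F : ℝ) := by exact_mod_cast h1
  rw [← h3, Real.sqrt_sq (norm_nonneg _)]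

/-- the orbit of a vector is a tight frame -/
theorem tight {ψ : AddChar F ℂ} (hψ : ψ ≠ 1) (x y : EuclideanSpace ℂ F) :
    ∑ v : F × F, ‖inner ℂ (shift ψ v x) y‖ ^ 2 = Fintype.card F * ‖x‖ ^ 2 * ‖y‖ ^ 2 := by
  classical
  apply Complex.ofReal_injective
  push_cast
  have h1 : ∀ v : F × F, ((‖inner ℂ (shift ψ v x) y‖ : ℝ) : ℂ) ^ 2 =
      ∑ k : F, ∑ l : F, (conj (x (k - v.1)) * y k * (x (l - v.1) * conj (y l))) *
        ψ (v.2 * (l - k)) := by
    intro v
    rw [← Complex.ofReal_pow, ← Complex.normSq_eq_norm_sq, ← Complex.mul_conj, PiLp.inner_apply,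
      map_sum, Finset.sum_mul_sum]
    refine Finset.sum_congr rfl fun k _ => Finset.sum_congr rfl fun l _ => ?_
    unfold shift
    simp only [RCLike.inner_apply]
    rw [map_mul (starRingEnd ℂ), map_mul (starRingEnd ℂ), map_mul (starRingEnd ℂ),
      map_mul (starRingEnd ℂ), Complex.conj_conj, Complex.conj_conj, conj_char]
    have h1 : ψ (-(v.2 * k)) * ψ (v.2 * l) = ψ (v.2 * (l - k)) := by
      rw [← AddChar.map_add_eq_mul]
      congr 1
      ring
    linear_combination (conj (x (k - v.1)) * y k * (x (l - v.1) * conj (y l))) * h1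
  simp_rw [h1]
  rw [Fintype.sum_prod_type]
  have h2 : ∀ a : F, ∑ b : F, ∑ k : F, ∑ l : F,
      (conj (x (k - a)) * y k * (x (l - a) * conj (y l))) * ψ (b * (l - k)) =
      ∑ k : F, Fintype.card F * ((conj (x (k - a)) * x (k - a)) * (conj (y k) * y k)) := by
    intro a
    rw [Finset.sum_comm]
    refine Finset.sum_congr rfl fun k _ => ?_
    rw [Finset.sum_comm]
    have h3 : ∀ l : F, ∑ b : F, (conj (x (k - a)) * y k * (x (l - a) * conj (y l))) *
        ψ (b * (l - k)) = if l = k then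
        (Fintype.card F : ℂ) * ((conj (x (k - a)) * x (k - a)) * (conj (y k) * y k)) else 0 := by
      intro l
      rw [← Finset.mul_sum, sum_char hψ]
      by_cases hlk : l = k
      · rw [hlk, sub_self, if_pos rfl, if_pos rfl]
        ring
      · rw [if_neg hlk, if_neg (sub_ne_zero.2 hlk), mul_zero]
    rw [Finset.sum_congr rfl fun l _ => h3 l, Finset.sum_ite_eq', if_pos (Finset.mem_univ _)]
  rw [Finset.sum_congr rfl fun a _ => h2 a, Finset.sum_comm]
  have h4 : ∀ z : EuclideanSpace ℂ F, ((‖z‖ : ℝ) : ℂ) ^ 2 = ∑ k, conj (z k) * z k := by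
    intro z
    have := norm_sq_eq ψ z
    push_cast at this
    rw [this]
    unfold ov
    refine Finset.sum_congr rfl fun k _ => ?_
    simp
  rw [h4 y, Finset.mul_sum]
  refine Finset.sum_congr rfl fun k _ => ?_
  rw [h4 x, ← Finset.mul_sum, ← Finset.sum_mul, mul_assoc]
  congr 2
  exact Fintype.sum_equiv (Equiv.subLeft k) _ _ fun a => by rw [Equiv.subLeft_apply]

end Pool.Agent.N392.Approx
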