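import Mathlib
import Pool.Agent.N392.Approx.Base

/-!
# Approximate fiducial vectors over finite fields of characteristic at least five
-/

set_option autoImplicit false

open Finset ComplexConjugate

namespace Pool.Agent.N392.Approx

variable {F : Type*} [Field F] [Fintype F]

open scoped Classical in
/-- the vector -/
noncomputable def vec (ψ : AddChar F ℂ) (u c : ℝ) : EuclideanSpace ℂ F :=
  WithLp.toLp 2 fun k => if k = 0 then (c : ℂ) else (u : ℂ) * ψ (k ^ 3)

omit [Fintype F] in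
theorem vec_zero (ψ : AddChar F ℂ) (u c : ℝ) : vec ψ u c 0 = (c : ℂ) := by
  unfold vec
  simp

omit [Fintype F] in
theorem vec_ne (ψ : AddChar F ℂ) (u c : ℝ) {k : F} (hk : k ≠ 0) :
    vec ψ u c k = (u : ℂ) * ψ (k ^ 3) := by
  unfold vec
  simp [hk]

theorem vec_abs (ψ : AddChar F ℂ) (u c : ℝ) (k : F) [Decidable (k = 0)] :
    conj (vec ψ u c k) * vec ψ u c k = (u : ℂ) ^ 2 + if k = 0 then (c : ℂ) ^ 2 - (u : ℂ) ^ 2 else 0 := by
  by_cases hk : k = 0
  · rw [if_pos hk, hk, vec_zero, Complex.conj_ofReal]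
    ring
  · rw [if_neg hk, vec_ne ψ u c hk, map_mul (starRingEnd ℂ), Complex.conj_ofReal, conj_char]
    have : ψ (-k ^ 3) * ψ (k ^ 3) = 1 := by
      rw [← AddChar.map_add_eq_mul, neg_add_cancel, AddChar.map_zero_eq_one]
    linear_combination (u : ℂ) ^ 2 * this

/-- overlaps with `a = 0` -/
theorem ov_zero {ψ : AddChar F ℂ} (hψ : ψ ≠ 1) (u c : ℝ) {b : F} (hb : b ≠ 0) :
    ov ψ (vec ψ u c) 0 b = (c : ℂ) ^ 2 - (u : ℂ) ^ 2 := by
  classical
  unfold ov
  have h1 : ∀ k : F, conj (vec ψ u c k) * vec ψ u c (k + 0) * ψ (b * k) =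
      (u : ℂ) ^ 2 * ψ (k * b) + if k = 0 then (c : ℂ) ^ 2 - (u : ℂ) ^ 2 else 0 := by
    intro k
    rw [add_zero, vec_abs, mul_comm b k]
    by_cases hk : k = 0
    · rw [if_pos hk, hk, zero_mul, AddChar.map_zero_eq_one]
      ring
    · rw [if_neg hk]
      ring
  rw [Finset.sum_congr rfl fun k _ => h1 k, Finset.sum_add_distrib, ← Finset.mul_sum,
    sum_char hψ, if_neg hb, Finset.sum_ite_eq', if_pos (Finset.mem_univ _)]
  ring

theorem norm_vec {ψ : AddChar F ℂ} (u c : ℝ) :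
    ‖vec ψ u c‖ ^ 2 = ((Fintype.card F : ℝ) - 1) * u ^ 2 + c ^ 2 := by
  classical
  apply Complex.ofReal_injective
  rw [norm_sq_eq ψ]
  unfold ov
  have h1 : ∀ k : F, conj (vec ψ u c k) * vec ψ u c (k + 0) * ψ (0 * k) =
      (u : ℂ) ^ 2 + if k = 0 then (c : ℂ) ^ 2 - (u : ℂ) ^ 2 else 0 := by
    intro k
    rw [add_zero, vec_abs, zero_mul, AddChar.map_zero_eq_one, mul_one]
  rw [Finset.sum_congr rfl fun k _ => h1 k, Finset.sum_add_distrib, Finset.sum_ite_eq',
    if_pos (Finset.mem_univ _), Finset.sum_const, Finset.card_univ, nsmul_eq_mul]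
  push_cast
  ring

/-- overlaps with `a ≠ 0` -/
theorem ov_ne (h2 : (2 : F) ≠ 0) (h3 : (3 : F) ≠ 0) {ψ : AddChar F ℂ} (hψ : ψ ≠ 1) {u c : ℝ}
    (hu : 0 ≤ u) (huc : u ≤ c) {a : F} (ha : a ≠ 0) (b : F) :
    |‖ov ψ (vec ψ u c) a b‖ - u ^ 2 * Real.sqrt (Fintype.card F)| ≤ 2 * (u * (c - u)) := by
  classical
  have hg := gauss h2 hψ (mul_ne_zero h3 ha) (3 * a ^ 2 + b) (a ^ 3)
  set g := ∑ k : F, ψ (3 * a * k ^ 2 + (3 * a ^ 2 + b) * k + a ^ 3) with hgd
  have ha' : (0 : F) ≠ -a := by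
    intro h
    apply ha
    linear_combination h
  have h1 : ov ψ (vec ψ u c) a b = (u : ℂ) ^ 2 * g + ((u : ℂ) * ((c : ℂ) - u) * ψ (a ^ 3) +
      (u : ℂ) * ((c : ℂ) - u) * ψ (a ^ 3 - a * b)) := by
    unfold ov
    have e : ∀ k : F, conj (vec ψ u c k) * vec ψ u c (k + a) * ψ (b * k) =
        (u : ℂ) ^ 2 * ψ (3 * a * k ^ 2 + (3 * a ^ 2 + b) * k + a ^ 3) +
        ((if k = 0 then (u : ℂ) * ((c : ℂ) - u) * ψ (a ^ 3) else 0) +
         (if k = -a then (u : ℂ) * ((c : ℂ) - u) * ψ (a ^ 3 - a * b) else 0)) := by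
      intro k
      by_cases k0 : k = 0
      · subst k0
        rw [if_pos rfl, if_neg ha', zero_add, vec_zero, vec_ne ψ u c ha, Complex.conj_ofReal,
          mul_zero, AddChar.map_zero_eq_one]
        have e1 : 3 * a * 0 ^ 2 + (3 * a ^ 2 + b) * 0 + a ^ 3 = a ^ 3 := by ring
        rw [e1]
        ring
      · by_cases k1 : k = -a
        · subst k1
          have hna : -a ≠ 0 := neg_ne_zero.2 ha
          rw [if_neg k0, if_pos rfl, neg_add_cancel, vec_zero, vec_ne ψ u c hna,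
            map_mul (starRingEnd ℂ), Complex.conj_ofReal, conj_char]
          have e1 : 3 * a * (-a) ^ 2 + (3 * a ^ 2 + b) * (-a) + a ^ 3 = a ^ 3 - a * b := by ring
          have e2 : ψ (-(-a) ^ 3) * ψ (b * -a) = ψ (a ^ 3 - a * b) := by
            rw [← AddChar.map_add_eq_mul]
            congr 1
            ring
          rw [e1]
          linear_combination ((u : ℂ) * c) * e2
        · have hka : k + a ≠ 0 := by
            intro h
            apply k1
            linear_combination h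
          rw [if_neg k0, if_neg k1, vec_ne ψ u c k0, vec_ne ψ u c hka, map_mul (starRingEnd ℂ),
            Complex.conj_ofReal, conj_char]
          have e2 : ψ (-k ^ 3) * ψ ((k + a) ^ 3) * ψ (b * k) =
              ψ (3 * a * k ^ 2 + (3 * a ^ 2 + b) * k + a ^ 3) := by
            rw [← AddChar.map_add_eq_mul, ← AddChar.map_add_eq_mul]
            congr 1
            ring
          linear_combination ((u : ℂ) ^ 2) * e2
    rw [Finset.sum_congr rfl fun k _ => e k, Finset.sum_add_distrib, Finset.sum_add_distrib,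
      ← Finset.mul_sum, Finset.sum_ite_eq', Finset.sum_ite_eq', if_pos (Finset.mem_univ _),
      if_pos (Finset.mem_univ _)]
  have h4 : ‖(u : ℂ) ^ 2 * g‖ = u ^ 2 * Real.sqrt (Fintype.card F) := by
    rw [norm_mul, hg, norm_pow, Complex.norm_real, Real.norm_eq_abs, abs_of_nonneg hu]
  have h5 : ∀ t : F, ‖(u : ℂ) * ((c : ℂ) - u) * ψ t‖ = u * (c - u) := by
    intro t
    rw [norm_mul, norm_mul, norm_char, mul_one, Complex.norm_real, Real.norm_eq_abs,
      abs_of_nonneg hu, ← Complex.ofReal_sub, Complex.norm_real, Real.norm_eq_abs,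
      abs_of_nonneg (by linarith)]
  rw [← h4, h1]
  refine (abs_norm_sub_norm_le _ _).trans ?_
  rw [add_sub_cancel_left]
  refine (norm_add_le _ _).trans ?_
  rw [h5, h5]
  linarith

/-- real estimates -/
theorem real_bound {q : ℝ} (hq : 5 ≤ q) {u c N : ℝ} (hu : 0 ≤ u) (huc : u ≤ c)
    (hu2 : u ^ 2 = (1 - 1 / Real.sqrt (q + 1)) / q)
    (hc2 : c ^ 2 = u ^ 2 + 1 / Real.sqrt (q + 1))
    (hN : |N - u ^ 2 * Real.sqrt q| ≤ 2 * (u * (c - u))) (hN0 : 0 ≤ N) :
    |(q + 1) * N ^ 2 - 1| ≤ 10 * q ^ (-(1 / 4) : ℝ) := by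
  have hq0 : 0 < q := by linarith
  set R := Real.sqrt (q + 1) with hR
  set t := Real.sqrt q with ht
  have hR2 : R ^ 2 = q + 1 := Real.sq_sqrt (by linarith)
  have ht2 : t ^ 2 = q := Real.sq_sqrt hq0.le
  have hR0 : 0 < R := Real.sqrt_pos.2 (by linarith)
  have ht0 : 0 < t := Real.sqrt_pos.2 hq0
  set s := q ^ (-(1 / 4) : ℝ) with hs
  have hs0 : 0 < s := Real.rpow_pos_of_pos hq0 _
  have hs4 : s ^ 4 = 1 / q := by
    rw [hs, ← Real.rpow_natCast, ← Real.rpow_mul hq0.le]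
    norm_num
    rw [Real.rpow_neg_one]
  have hs2 : s ^ 2 = 1 / t := by
    have h1 : (s ^ 2) ^ 2 = (1 / t) ^ 2 := by
      rw [← pow_mul, hs4, div_pow, ht2]
      norm_num
    exact (pow_left_inj₀ (by positivity) (by positivity) two_ne_zero).1 h1
  have hs1 : s ≤ 67 / 100 := by
    by_contra h
    push Not at h
    have h1 : (67 / 100 : ℝ) ^ 4 < s ^ 4 := by
      apply pow_lt_pow_left₀ h (by norm_num) (by norm_num)
    rw [hs4] at h1
    have h2 : 1 / q ≤ 1 / 5 := one_div_le_one_div_of_le (by norm_num) hq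
    rw [one_div] at h1 h2
    norm_num at h1 h2
    linarith
  have hRt : R ≤ 11025 / 10000 * t := by
    rw [hR]
    apply Real.sqrt_le_iff.2
    refine ⟨by positivity, ?_⟩
    rw [mul_pow, ht2]
    norm_num
    linarith
  have hRt1 : R ≤ t + 1 := by
    rw [hR]
    apply Real.sqrt_le_iff.2
    refine ⟨by positivity, ?_⟩
    nlinarith
  have hRt2 : t ≤ R := Real.sqrt_le_sqrt (by linarith)
  have hw0 : 0 ≤ c - u := by linarith
  have hw2 : (c - u) ^ 2 ≤ 1 / R := by nlinarith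
  have hu1 : u ^ 2 ≤ 1 / q := by
    rw [hu2]
    apply div_le_div_of_nonneg_right _ hq0.le
    have : 0 < 1 / R := by positivity
    linarith
  have hRuw : R * (u * (c - u)) ≤ 105 / 100 * s := by
    have h1 : (R * (u * (c - u))) ^ 2 ≤ (105 / 100 * s) ^ 2 := by
      have h2 : (R * (u * (c - u))) ^ 2 = R ^ 2 * (u ^ 2 * (c - u) ^ 2) := by ring
      have h3 : u ^ 2 * (c - u) ^ 2 ≤ 1 / q * (1 / R) :=
        mul_le_mul hu1 hw2 (sq_nonneg _) (by positivity)
      have h4 : R ^ 2 * (1 / q * (1 / R)) = R / q := by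
        field_simp
      rw [h2]
      refine (mul_le_mul_of_nonneg_left h3 (sq_nonneg R)).trans ?_
      rw [h4, mul_pow, hs2, ← ht2, div_le_iff₀ (by positivity)]
      have h5 : (105 / 100 : ℝ) ^ 2 * (1 / t) * t ^ 2 = 11025 / 10000 * t := by
        field_simp
        norm_num
      rw [h5]
      exact hRt
    exact (pow_le_pow_iff_left₀ (by positivity) (by positivity) two_ne_zero).1 h1
  have hmain : R * (u ^ 2 * t) = (R - 1) / t := by
    rw [hu2, ← ht2]
    field_simp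
  have hup : R * (u ^ 2 * t) ≤ 1 := by
    rw [hmain, div_le_one ht0]
    linarith
  have hlo : 1 - s ^ 2 ≤ R * (u ^ 2 * t) := by
    rw [hmain, hs2, le_div_iff₀ ht0]
    field_simp
    linarith
  obtain ⟨hN1, hN2⟩ := abs_le.1 hN
  have hA : R * N ≤ 1 + 21 / 10 * s := by
    have : R * (N - u ^ 2 * t) ≤ R * (2 * (u * (c - u))) := mul_le_mul_of_nonneg_left hN2 hR0.le
    linarith
  have hB : 1 - s ^ 2 - 21 / 10 * s ≤ R * N := by
    have : R * (-(2 * (u * (c - u)))) ≤ R * (N - u ^ 2 * t) :=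
      mul_le_mul_of_nonneg_left hN1 hR0.le
    linarith
  have hs3 : s ^ 2 ≤ 67 / 100 * s := by nlinarith
  have hC : |R * N - 1| ≤ 277 / 100 * s := by
    rw [abs_le]
    constructor <;> linarith
  have hRN : 0 ≤ R * N := by positivity
  have hD : (q + 1) * N ^ 2 - 1 = (R * N - 1) * (R * N + 1) := by
    rw [← hR2]; ring
  rw [hD, abs_mul, abs_of_nonneg (by linarith : (0 : ℝ) ≤ R * N + 1)]
  have hE : R * N + 1 ≤ 341 / 100 := by linarith
  calc |R * N - 1| * (R * N + 1) ≤ (277 / 100 * s) * (341 / 100) :=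
        mul_le_mul hC hE (by linarith) (by positivity)
    _ ≤ 10 * s := by linarith

/-- approximate fiducial vectors over finite fields -/
theorem main (h2 : (2 : F) ≠ 0) (h3 : (3 : F) ≠ 0) {ψ : AddChar F ℂ} (hψ : ψ ≠ 1) :
    ∃ x : EuclideanSpace ℂ F,
      (∀ v : F × F, ‖shift ψ v x‖ = 1) ∧
      (∀ y : EuclideanSpace ℂ F,
        ∑ v : F × F, ‖inner ℂ (shift ψ v x) y‖ ^ 2 = Fintype.card F * ‖y‖ ^ 2) ∧
      (∀ v w : F × F, v ≠ w →
        |((Fintype.card F : ℝ) + 1) * ‖inner ℂ (shift ψ v x) (shift ψ w x)‖ ^ 2 - 1| ≤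
          10 * (Fintype.card F : ℝ) ^ (-(1 / 4) : ℝ)) ∧
      (∀ v w : F × F, v ≠ w → v.1 = w.1 →
        ‖inner ℂ (shift ψ v x) (shift ψ w x)‖ = 1 / Real.sqrt ((Fintype.card F : ℝ) + 1)) := by
  classical
  set q : ℝ := (Fintype.card F : ℝ) with hq
  have hq5 : 5 ≤ q := by
    have h5 : 5 ≤ Fintype.card F := by
      by_contra h
      push Not at h
      have h0 := Nat.cast_card_eq_zero F
      have h1 : 1 < Fintype.card F := Fintype.one_lt_card
      generalize Fintype.card F = n at *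
      interval_cases n
      · exact h2 (by exact_mod_cast h0)
      · exact h3 (by exact_mod_cast h0)
      · have h4 : (2 : F) * 2 = 0 := by
          have : ((4 : ℕ) : F) = 2 * 2 := by push_cast; norm_num
          rw [← this, h0]
        rcases mul_eq_zero.1 h4 with h5 | h5 <;> exact h2 h5
    rw [hq]
    exact_mod_cast h5
  have hq0 : 0 < q := by linarith
  have hR1 : 1 ≤ Real.sqrt (q + 1) := by
    rw [Real.one_le_sqrt]
    linarith
  have hR0 : 0 < Real.sqrt (q + 1) := by linarith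
  set u := Real.sqrt ((1 - 1 / Real.sqrt (q + 1)) / q) with hu
  have hnn : 0 ≤ (1 - 1 / Real.sqrt (q + 1)) / q := by
    apply div_nonneg _ hq0.le
    rw [sub_nonneg, div_le_one hR0]
    exact hR1
  have hu2 : u ^ 2 = (1 - 1 / Real.sqrt (q + 1)) / q := Real.sq_sqrt hnn
  have hu0 : 0 ≤ u := Real.sqrt_nonneg _
  set c := Real.sqrt (u ^ 2 + 1 / Real.sqrt (q + 1)) with hc
  have hc2 : c ^ 2 = u ^ 2 + 1 / Real.sqrt (q + 1) := Real.sq_sqrt (by positivity)
  have huc : u ≤ c := by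
    rw [hc]
    apply Real.le_sqrt_of_sq_le
    have : 0 < 1 / Real.sqrt (q + 1) := by positivity
    linarith
  have hn : ‖vec ψ u c‖ = 1 := by
    have h1 : ‖vec ψ u c‖ ^ 2 = 1 ^ 2 := by
      rw [norm_vec, ← hq, hc2, hu2]
      field_simp
      ring
    exact (pow_left_inj₀ (norm_nonneg _) zero_le_one two_ne_zero).1 h1
  have hz : ∀ v w : F × F, v ≠ w → v.1 = w.1 →
      ‖inner ℂ (shift ψ v (vec ψ u c)) (shift ψ w (vec ψ u c))‖ = 1 / Real.sqrt (q + 1) := by
    intro v w hvw h1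
    have hb : w.2 - v.2 ≠ 0 := by
      intro h
      exact hvw (Prod.ext h1 (sub_eq_zero.1 h).symm)
    rw [inner_shift, norm_mul, norm_char, one_mul, h1, sub_self, ov_zero hψ u c hb,
      ← Complex.ofReal_pow, ← Complex.ofReal_pow, ← Complex.ofReal_sub, Complex.norm_real, hc2,
      add_sub_cancel_left, Real.norm_eq_abs, abs_of_nonneg (by positivity)]
  refine ⟨vec ψ u c, fun v => by rw [norm_shift, hn], fun y => ?_, fun v w hvw => ?_, hz⟩
  · rw [tight hψ, hn, ← hq]
    ring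
  · by_cases h1 : v.1 = w.1
    · rw [hz v w hvw h1, div_pow, Real.sq_sqrt (by linarith)]
      have : (q + 1) * (1 ^ 2 / (q + 1)) - 1 = 0 := by
        field_simp
        ring
      rw [this, abs_zero]
      positivity
    · rw [inner_shift, norm_mul, norm_char, one_mul]
      exact real_bound hq5 hu0 huc hu2 hc2
        (ov_ne h2 h3 hψ hu0 huc (sub_ne_zero.2 h1) _) (norm_nonneg _)

end Pool.Agent.N392.Approx
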